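import Pool.Agent.X170.Quat.Main

namespace Pool.Agent.Results.MP_b29aa3_nt.HeightFive

/-- The height of an integer polynomial: the largest absolute value of its coefficients. -/
def height (P : Polynomial ℤ) : ℕ := P.support.sup (fun k => (P.coeff k).natAbs)

/-- `x` is congruent to `1` or to `-1` modulo `m`. -/
def IsPM (x m : ℤ) : Prop := x ≡ 1 [ZMOD m] ∨ x ≡ -1 [ZMOD m]

/-- The hypotheses of Q1: primes `p < q < r < s` with `s = ±1 mod pqr`, `r = ±1 mod pq` and
`q ≠ -1 mod p`. -/
def Hyp (p q r s : ℕ) : Prop :=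
  p.Prime ∧ q.Prime ∧ r.Prime ∧ s.Prime ∧ p < q ∧ q < r ∧ r < s ∧
    IsPM (s : ℤ) ((p * q * r : ℕ) : ℤ) ∧ IsPM (r : ℤ) ((p * q : ℕ) : ℤ) ∧
    ¬ ((q : ℤ) ≡ -1 [ZMOD (p : ℤ)])

/-- Q1 of the problem is false; for the primes `11, 13, 571, 163307` the hypotheses hold and the
coefficient of `x ^ 4105048112` in the cyclotomic polynomial is `5`, so that the height is at
least `5`. -/
theorem result :
    (¬ ∀ p q r s : ℕ, Hyp p q r s → height (Polynomial.cyclotomic (p * q * r * s) ℤ) = 2) ∧
    Hyp 11 13 571 163307 ∧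
    (Polynomial.cyclotomic (11 * 13 * 571 * 163307) ℤ).coeff 4105048112 = 5 ∧
    5 ≤ height (Polynomial.cyclotomic (11 * 13 * 571 * 163307) ℤ) := by
  have hc := Pool.Agent.X170.Quat.coeff_five
  have hyp : Hyp 11 13 571 163307 := by
    refine ⟨by norm_num, by norm_num, by norm_num, Pool.Agent.X170.Quat.prime_s, by norm_num,
      by norm_num, by norm_num, Or.inl ?_, Or.inr ?_, ?_⟩
    · decide
    · decide
    · decide
  have hh : 5 ≤ height (Polynomial.cyclotomic (11 * 13 * 571 * 163307) ℤ) := by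
    have h1 : 4105048112 ∈ (Polynomial.cyclotomic (11 * 13 * 571 * 163307) ℤ).support := by
      rw [Polynomial.mem_support_iff, hc]; norm_num
    have h2 := Finset.le_sup (f := fun k =>
      ((Polynomial.cyclotomic (11 * 13 * 571 * 163307) ℤ).coeff k).natAbs) h1
    simp only [hc] at h2
    exact h2
  refine ⟨?_, hyp, hc, hh⟩
  intro h
  have := h 11 13 571 163307 hyp
  omega

end Pool.Agent.Results.MP_b29aa3_nt.HeightFive
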